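import Pool.Agent.Lib.MP_6bc78b_nt.MS.P4.Iface

/-! Project MS, Part IV: AVG, weighted inequalities give inequalities of counting functions. -/

set_option autoImplicit false

open Complex Filter Topology ArithmeticFunction

namespace Pool.Agent.Lib.MP_6bc78b_nt.MS.P4.H75

open Pool.Agent.Lib.MP_6bc78b_nt.MS

theorem exists_delta {q q' : ℝ} (hq : 0 ≤ q) (hqq : q < q') :
    ∃ δ : ℝ, 0 < δ ∧ δ < 1 / 2 ∧ q * (1 + δ) ^ 2 < q' * (1 - δ) ^ 2 := by
  have hc : ContinuousAt (fun δ : ℝ => q' * (1 - δ) ^ 2 - q * (1 + δ) ^ 2) 0 := by fun_prop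
  have h0 : 0 < (fun δ : ℝ => q' * (1 - δ) ^ 2 - q * (1 + δ) ^ 2) 0 := by
    simp only; linarith
  have h1 := hc.eventually (lt_mem_nhds h0)
  obtain ⟨ε, hε, h2⟩ := Metric.eventually_nhds_iff.1 h1
  refine ⟨min (ε / 2) (1 / 4), by positivity, ?_, ?_⟩
  · have := min_le_right (ε / 2) (1 / 4 : ℝ); linarith
  · have h3 : dist (min (ε / 2) (1 / 4)) 0 < ε := by
      rw [Real.dist_eq, sub_zero, abs_of_nonneg (by positivity)]
      have := min_le_left (ε / 2) (1 / 4 : ℝ); linarith
    have := h2 h3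
    linarith

theorem avg (h1 : AvStatement) (h2 : NasStatement) : AvgStatement := by
  intro b hb q q' hq hqq hev
  obtain ⟨δ, hδ0, hδ1, hδ⟩ := exists_delta hq hqq
  obtain ⟨X0', hX0'⟩ := eventually_atTop.1 hev
  set X0 : ℝ := max X0' 3 with hX0
  have hX03 : 3 ≤ X0 := le_max_right _ _
  obtain ⟨C, hC⟩ := h1 b hb δ hδ0 hδ1 X0 hX03
  have hpi := Real.pi_pos
  -- growth
  have hgrow : Tendsto (fun X : ℝ => X * Real.log X) atTop atTop :=
    tendsto_id.atTop_mul_atTop₀ Real.tendsto_log_atTop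
  set κ : ℝ := (q' * (1 - δ) ^ 2 - q * (1 + δ) ^ 2) / (2 * Real.pi) with hκ
  have hκpos : 0 < κ := by rw [hκ]; apply div_pos <;> linarith
  have e1 : ∀ᶠ X : ℝ in atTop, C / κ ≤ X * Real.log X := hgrow.eventually_ge_atTop _
  have e2 : ∀ᶠ X : ℝ in atTop, Real.log (1 + δ) / δ ≤ Real.log X :=
    Real.tendsto_log_atTop.eventually_ge_atTop _
  have e3 : ∀ᶠ X : ℝ in atTop, 1 - δ <
      Nb (fun γ => (mz γ : ℝ)) X / (X * Real.log X / (2 * Real.pi)) :=
    h2.eventually (lt_mem_nhds (by linarith))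
  filter_upwards [e1, e2, e3, eventually_ge_atTop X0] with Y hY1 hY2 hY3 hY4
  have hY0 : 0 < Y := by linarith
  have hlogY : 0 < Real.log Y := Real.log_pos (by linarith)
  -- lower inequality of AV at (1+δ) Y
  set X : ℝ := (1 + δ) * Y with hXdef
  have hYX : Y ≤ X := by rw [hXdef]; nlinarith
  have hX0X : X0 ≤ X := hY4.trans hYX
  have hXY : X / (1 + δ) = Y := by rw [hXdef]; field_simp
  obtain ⟨l1, -, l3⟩ := hC X hX0X
  rw [hXY] at l1
  have hlogX : 0 < Real.log X := Real.log_pos (by linarith)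
  -- bound of the integral
  have hb1 : ∫ T in X0..X, (∑ᶠ γ ∈ zset T, b γ * wt T γ) / (Real.sqrt Real.pi * DD T)
      ≤ ∫ T in X0..X, q * Real.log X / (2 * Real.pi) := by
    refine intervalIntegral.integral_mono_on hX0X l3 intervalIntegrable_const ?_
    intro T hT
    have hT3 : 3 ≤ T := hX03.trans hT.1
    have hlogT : 0 < Real.log T := Real.log_pos (by linarith)
    have hDD : 0 < DD T := by unfold DD; positivity
    have hs : 0 < Real.sqrt Real.pi := Real.sqrt_pos.2 hpi
    have a1 := hX0' T ((le_max_left _ _).trans hT.1)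
    rw [div_le_iff₀ (by positivity)]
    refine a1.trans ?_
    have hss : Real.sqrt Real.pi * Real.sqrt Real.pi = Real.pi := Real.mul_self_sqrt hpi.le
    have a2 : q * (cG T * Real.log T) = q * Real.log T / (2 * Real.pi) * (Real.sqrt Real.pi * DD T) := by
      unfold cG
      field_simp
      rw [pow_two, hss]
    rw [a2]
    refine mul_le_mul_of_nonneg_right ?_ (by positivity)
    refine div_le_div_of_nonneg_right ?_ (by positivity)
    exact mul_le_mul_of_nonneg_left (Real.log_le_log (by linarith) hT.2) hq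
  rw [intervalIntegral.integral_const, smul_eq_mul] at hb1
  -- log X ≤ (1+δ) log Y
  have hlX : Real.log X ≤ (1 + δ) * Real.log Y := by
    rw [hXdef, Real.log_mul (by linarith) (by linarith)]
    rw [div_le_iff₀ hδ0] at hY2
    linarith
  have hb2 : (X - X0) * (q * Real.log X / (2 * Real.pi)) ≤
      q * (1 + δ) ^ 2 * (Y * Real.log Y) / (2 * Real.pi) := by
    have c1 : (X - X0) * (q * Real.log X / (2 * Real.pi)) ≤ X * (q * Real.log X / (2 * Real.pi)) :=
      mul_le_mul_of_nonneg_right (by linarith) (by positivity)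
    refine c1.trans ?_
    rw [mul_div_assoc']
    refine div_le_div_of_nonneg_right ?_ (by positivity)
    have c2 : X * (q * Real.log X) ≤ X * (q * ((1 + δ) * Real.log Y)) :=
      mul_le_mul_of_nonneg_left (mul_le_mul_of_nonneg_left hlX hq) (by linarith)
    refine c2.trans (le_of_eq ?_)
    rw [hXdef]; ring
  have hlow : (1 - δ) * Nb b Y - C ≤ q * (1 + δ) ^ 2 * (Y * Real.log Y) / (2 * Real.pi) :=
    l1.trans (hb1.trans hb2)
  have hC' : C ≤ κ * (Y * Real.log Y) := by
    rw [div_le_iff₀ hκpos] at hY1; linarith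
  have hN : (1 - δ) * (Y * Real.log Y / (2 * Real.pi)) ≤ Nb (fun γ => (mz γ : ℝ)) Y := by
    have hpos : 0 < Y * Real.log Y / (2 * Real.pi) := by positivity
    rw [lt_div_iff₀ hpos] at hY3
    exact hY3.le
  have hkey : (1 - δ) * Nb b Y ≤ (1 - δ) * (q' * Nb (fun γ => (mz γ : ℝ)) Y) := by
    have hq' : 0 ≤ q' := hq.trans hqq.le
    have d1 : (1 - δ) * (q' * ((1 - δ) * (Y * Real.log Y / (2 * Real.pi)))) ≤
        (1 - δ) * (q' * Nb (fun γ => (mz γ : ℝ)) Y) :=
      mul_le_mul_of_nonneg_left (mul_le_mul_of_nonneg_left hN hq') (by linarith)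
    refine le_trans ?_ d1
    have d2 : q * (1 + δ) ^ 2 * (Y * Real.log Y) / (2 * Real.pi) + κ * (Y * Real.log Y) =
        (1 - δ) * (q' * ((1 - δ) * (Y * Real.log Y / (2 * Real.pi)))) := by
      rw [hκ]; field_simp; ring
    linarith
  exact le_of_mul_le_mul_left hkey (by linarith)

end Pool.Agent.Lib.MP_6bc78b_nt.MS.P4.H75
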