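import Pool.Agent.Lib.MP_6bc78b_nt.MS.P4.Iface

/-! Project MS, Part IV: AV, the integrated inequality. -/

set_option autoImplicit false

open Complex Filter Topology ArithmeticFunction

namespace Pool.Agent.Lib.MP_6bc78b_nt.MS.P4.H75

open Pool.Agent.Lib.MP_6bc78b_nt.MS

theorem DD_pos {T : ℝ} (hT : 3 ≤ T) : 0 < DD T := by
  unfold DD
  have h1 : 0 < Real.log T := Real.log_pos (by linarith)
  positivity

theorem kw_nonneg {γ T : ℝ} (hT : 3 ≤ T) : 0 ≤ kw γ T := by
  unfold kw wt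
  have := DD_pos hT
  positivity

theorem continuousOn_DD : ContinuousOn DD (Set.Ici 3) := by
  unfold DD
  refine ContinuousOn.div continuousOn_id ?_ ?_
  · refine ContinuousOn.rpow_const ?_ ?_
    · exact Real.continuousOn_log.mono (fun x hx => by
        have : (3 : ℝ) ≤ x := hx
        simp only [Set.mem_compl_iff, Set.mem_singleton_iff]
        linarith)
    · intro x _
      right; norm_num
  · intro x hx
    have h3 : (3 : ℝ) ≤ x := hx
    have h1 : 0 < Real.log x := Real.log_pos (by linarith)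
    positivity

theorem continuousOn_kw (γ : ℝ) : ContinuousOn (kw γ) (Set.Ici 3) := by
  unfold kw wt
  refine ContinuousOn.div ?_ (continuousOn_const.mul continuousOn_DD) ?_
  · refine Real.continuous_exp.comp_continuousOn ?_
    refine ContinuousOn.div ?_ (continuousOn_DD.pow 2) ?_
    · fun_prop
    · intro x hx
      have := DD_pos hx
      positivity
  · intro x hx
    have := DD_pos hx
    have := Real.pi_pos
    positivity

theorem integrableOn_kw (γ : ℝ) {a b : ℝ} (ha : 3 ≤ a) :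
    MeasureTheory.IntegrableOn (kw γ) (Set.Ioc a b) := by
  refine (ContinuousOn.integrableOn_compact (K := Set.Icc a b) isCompact_Icc ?_).mono_set
    Set.Ioc_subset_Icc_self
  exact (continuousOn_kw γ).mono (fun x hx => le_trans ha hx.1)

/-- the truncated kernel -/
noncomputable def gk (γ : ℝ) : ℝ → ℝ := Set.indicator (Set.Ioo (γ / 2) (2 * γ)) (kw γ)

theorem gk_integrable (γ : ℝ) {a b : ℝ} (ha : 3 ≤ a) (hab : a ≤ b) :
    IntervalIntegrable (gk γ) MeasureTheory.volume a b := by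
  rw [intervalIntegrable_iff_integrableOn_Ioc_of_le hab]
  exact (integrableOn_kw γ ha).indicator measurableSet_Ioo

theorem gk_integral (γ : ℝ) {a b : ℝ} (hab : a ≤ b) :
    ∫ T in a..b, gk γ T = ∫ T in Set.Ioc a b ∩ Set.Ioo (γ / 2) (2 * γ), kw γ T := by
  rw [intervalIntegral.integral_of_le hab]
  unfold gk
  exact MeasureTheory.setIntegral_indicator measurableSet_Ioo

theorem gk_nonneg (γ : ℝ) {a b : ℝ} (ha : 3 ≤ a) (hab : a ≤ b) : 0 ≤ ∫ T in a..b, gk γ T := by
  refine intervalIntegral.integral_nonneg hab ?_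
  intro x hx
  unfold gk
  by_cases hc : x ∈ Set.Ioo (γ / 2) (2 * γ)
  · rw [Set.indicator_of_mem hc]
    exact kw_nonneg (le_trans ha hx.1)
  · rw [Set.indicator_of_notMem hc]

/-- comparison of set integrals of `kw` -/
theorem mono_kw (γ : ℝ) (s : Set ℝ) {a b : ℝ} (ha : 3 ≤ a) (hs : s ⊆ Set.Ioc a b)
    (hab : a ≤ b) : ∫ T in s, kw γ T ≤ ∫ T in a..b, kw γ T := by
  rw [intervalIntegral.integral_of_le hab]
  refine MeasureTheory.setIntegral_mono_set (integrableOn_kw γ ha) ?_ (Filter.Eventually.of_forall hs)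
  rw [Filter.EventuallyLE, MeasureTheory.ae_restrict_iff' measurableSet_Ioc]
  exact Filter.Eventually.of_forall (fun x hx => kw_nonneg (le_trans ha hx.1.le))

theorem sum_zset {Z : Finset ℝ} {X T : ℝ} (hT : 0 < T) (hTX : T ≤ X)
    (hZ : ∀ γ, γ ∈ Z ↔ 0 < γ ∧ γ ≤ 2 * X ∧ riemannZeta (1 / 2 + γ * I) = 0) (f : ℝ → ℝ) :
    ∑ᶠ γ ∈ zset T, f γ = ∑ γ ∈ Z, (if γ / 2 < T ∧ T < 2 * γ then f γ else 0) := by
  have e : zset T = ((Z.filter (fun γ => γ / 2 < T ∧ T < 2 * γ) : Finset ℝ) : Set ℝ) := by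
    ext γ
    simp only [zset, Set.mem_ofPred_eq, Finset.coe_filter, hZ]
    constructor
    · rintro ⟨h1, h2, h3⟩
      exact ⟨⟨by linarith, by linarith, h3⟩, by linarith, by linarith⟩
    · rintro ⟨⟨h1, h2, h3⟩, h4, h5⟩
      exact ⟨by linarith, by linarith, h3⟩
  rw [e, finsum_mem_coe_finset, Finset.sum_filter]

theorem av (h1 : Ker4Statement) (h2 : ZfacStatement) : AvStatement := by
  intro b hb δ hδ0 hδ1 X0 hX0
  obtain ⟨X1, hX1, hker⟩ := h1 δ hδ0 hδ1
  have hfin := h2.2.2.2.2.2.1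
  -- the threshold
  set X2 : ℝ := max X1 (2 * X0) with hX2
  have hX2a : X1 ≤ X2 := le_max_left _ _
  have hX2b : 2 * X0 ≤ X2 := le_max_right _ _
  classical
  set Zs : Finset ℝ := (hfin X2).toFinset with hZs
  set C1 : ℝ := ∑ γ ∈ Zs, b γ * ∫ T in X0..(2 * X2), kw γ T with hC1
  set C2 : ℝ := ∑ γ ∈ Zs, b γ with hC2
  have hX02 : X0 ≤ 2 * X2 := by linarith
  have hkpos : ∀ γ : ℝ, 0 ≤ ∫ T in X0..(2 * X2), kw γ T := fun γ =>
    intervalIntegral.integral_nonneg hX02 (fun x hx => kw_nonneg (le_trans hX0 hx.1))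
  have hC1p : 0 ≤ C1 := Finset.sum_nonneg (fun γ _ => mul_nonneg (hb γ) (hkpos γ))
  have hC2p : 0 ≤ C2 := Finset.sum_nonneg (fun γ _ => hb γ)
  refine ⟨C1 + C2, ?_⟩
  intro X hX
  have hXpos : 0 < X := by linarith
  set Z : Finset ℝ := (hfin (2 * X)).toFinset with hZ
  have hZmem : ∀ γ, γ ∈ Z ↔ 0 < γ ∧ γ ≤ 2 * X ∧ riemannZeta (1 / 2 + γ * I) = 0 := by
    intro γ; simp [hZ]
  have hNb : ∀ Y : ℝ, Y ≤ 2 * X → Nb b Y = ∑ γ ∈ Z.filter (fun γ => γ ≤ Y), b γ := by
    intro Y hY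
    unfold Nb
    have e : {γ : ℝ | 0 < γ ∧ γ ≤ Y ∧ riemannZeta (1 / 2 + γ * I) = 0}
        = ((Z.filter (fun γ => γ ≤ Y) : Finset ℝ) : Set ℝ) := by
      ext γ
      simp only [Set.mem_ofPred_eq, Finset.coe_filter, hZmem]
      constructor
      · rintro ⟨a1, a2, a3⟩
        exact ⟨⟨a1, by linarith, a3⟩, a2⟩
      · rintro ⟨⟨a1, a2, a3⟩, a4⟩
        exact ⟨a1, a4, a3⟩
    rw [e, finsum_mem_coe_finset]
  -- the integrand
  have hint : ∀ T ∈ Set.Icc X0 X, (∑ᶠ γ ∈ zset T, b γ * wt T γ) / (Real.sqrt Real.pi * DD T)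
      = ∑ γ ∈ Z, b γ * gk γ T := by
    intro T hT
    have hT3 : 3 ≤ T := le_trans hX0 hT.1
    rw [sum_zset (by linarith) hT.2 hZmem, Finset.sum_div]
    refine Finset.sum_congr rfl (fun γ _ => ?_)
    unfold gk
    by_cases hc : γ / 2 < T ∧ T < 2 * γ
    · rw [if_pos hc, Set.indicator_of_mem (show T ∈ Set.Ioo (γ / 2) (2 * γ) from hc)]
      unfold kw; ring
    · rw [if_neg hc, Set.indicator_of_notMem (show T ∉ Set.Ioo (γ / 2) (2 * γ) from hc)]
      simp
  have hInt : IntervalIntegrable (fun T => ∑ γ ∈ Z, b γ * gk γ T) MeasureTheory.volume X0 X := by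
    have : (fun T => ∑ γ ∈ Z, b γ * gk γ T) = ∑ γ ∈ Z, (fun T => b γ * gk γ T) := by
      funext T; simp
    rw [this]
    refine IntervalIntegrable.sum _ (fun γ _ => ?_)
    exact (gk_integrable γ hX0 hX).const_mul (b γ)
  have hEq : ∫ T in X0..X, (∑ᶠ γ ∈ zset T, b γ * wt T γ) / (Real.sqrt Real.pi * DD T)
      = ∑ γ ∈ Z, b γ * ∫ T in X0..X, gk γ T := by
    rw [intervalIntegral.integral_congr (g := fun T => ∑ γ ∈ Z, b γ * gk γ T)
      (by intro T hT; rw [Set.uIcc_of_le hX] at hT; exact hint T hT)]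
    rw [intervalIntegral.integral_finsetSum (fun γ _ => (gk_integrable γ hX0 hX).const_mul (b γ))]
    refine Finset.sum_congr rfl (fun γ _ => ?_)
    rw [intervalIntegral.integral_const_mul]
  -- bounds of the single integrals
  have up1 : ∀ γ, X2 ≤ γ → ∫ T in X0..X, gk γ T ≤ 1 + δ := by
    intro γ hγ
    rw [gk_integral γ hX]
    have hγ3 : 3 ≤ γ / 2 := by linarith
    refine (mono_kw γ _ hγ3 ?_ (by linarith)).trans (hker γ (by linarith)).2.1
    intro T hT
    exact ⟨hT.2.1, hT.2.2.le⟩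
  have up2 : ∀ γ, X2 ≤ γ → (1 + δ) * X < γ → ∫ T in X0..X, gk γ T ≤ δ := by
    intro γ hγ hγX
    rw [gk_integral γ hX]
    have hγ3 : 3 ≤ γ / 2 := by linarith
    have hd : γ / 2 ≤ γ / (1 + δ) := div_le_div_of_nonneg_left (by linarith) (by linarith) (by linarith)
    refine (mono_kw γ _ hγ3 ?_ hd).trans (hker γ (by linarith)).2.2
    intro T hT
    refine ⟨hT.2.1, ?_⟩
    rw [le_div_iff₀ (by linarith)]
    nlinarith [hT.1.2]
  have up3 : ∀ γ, γ ≤ X2 → ∫ T in X0..X, gk γ T ≤ ∫ T in X0..(2 * X2), kw γ T := by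
    intro γ hγ
    rw [gk_integral γ hX]
    refine mono_kw γ _ hX0 ?_ hX02
    intro T hT
    exact ⟨hT.1.1, by linarith [hT.2.2]⟩
  have low : ∀ γ, X2 ≤ γ → γ ≤ X / (1 + δ) → 1 - δ ≤ ∫ T in X0..X, gk γ T := by
    intro γ hγ hγX
    rw [gk_integral γ hX]
    refine (hker γ (by linarith)).1.trans ?_
    have hle : γ / (1 + δ) ≤ (1 + δ) * γ := by
      rw [div_le_iff₀ (by linarith)]
      have hγ0 : 0 ≤ γ * (2 * δ + δ ^ 2) := mul_nonneg (by linarith) (by positivity)
      nlinarith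
    rw [intervalIntegral.integral_of_le hle]
    have hX0γ : X0 ≤ γ / (1 + δ) := by
      rw [le_div_iff₀ (by linarith)]; nlinarith
    have hsub : Set.Ioc (γ / (1 + δ)) ((1 + δ) * γ) ⊆ Set.Ioc X0 X ∩ Set.Ioo (γ / 2) (2 * γ) := by
      intro T hT
      have hX' : (1 + δ) * γ ≤ X := by
        rw [le_div_iff₀ (by linarith)] at hγX; linarith
      have h2γ : γ / 2 ≤ γ / (1 + δ) :=
        div_le_div_of_nonneg_left (by linarith) (by linarith) (by linarith)
      exact ⟨⟨lt_of_le_of_lt hX0γ hT.1, hT.2.trans hX'⟩, lt_of_le_of_lt h2γ hT.1,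
        lt_of_le_of_lt hT.2 (by nlinarith)⟩
    refine MeasureTheory.setIntegral_mono_set ?_ ?_ (Filter.Eventually.of_forall hsub)
    · exact (integrableOn_kw γ hX0).mono_set Set.inter_subset_left
    · rw [Filter.EventuallyLE, MeasureTheory.ae_restrict_iff' (measurableSet_Ioc.inter measurableSet_Ioo)]
      exact Filter.Eventually.of_forall (fun x hx => kw_nonneg (le_trans hX0 hx.1.1.le))
  have gnn : ∀ γ, 0 ≤ ∫ T in X0..X, gk γ T := fun γ => gk_nonneg γ hX0 hX
  have hZsmem : ∀ γ, γ ∈ Zs ↔ 0 < γ ∧ γ ≤ X2 ∧ riemannZeta (1 / 2 + γ * I) = 0 := by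
    intro γ; simp [hZs]
  refine ⟨?_, ?_, ?_⟩
  · -- lower bound
    rw [hEq, hNb (X / (1 + δ)) (by rw [div_le_iff₀ (by linarith)]; nlinarith)]
    have s1 : ∑ γ ∈ Z.filter (fun γ => γ ≤ X / (1 + δ)), b γ
        ≤ C2 + ∑ γ ∈ Z.filter (fun γ => X2 ≤ γ ∧ γ ≤ X / (1 + δ)), b γ := by
      rw [hC2, Finset.sum_filter_add_sum_filter_not (Z.filter (fun γ => γ ≤ X / (1 + δ)))
        (fun γ => γ < X2) b |>.symm]
      refine add_le_add ?_ ?_
      · refine Finset.sum_le_sum_of_subset_of_nonneg ?_ (fun γ _ _ => hb γ)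
        intro γ hγ
        simp only [Finset.mem_filter, hZmem] at hγ
        rw [hZsmem]
        exact ⟨hγ.1.1.1, hγ.2.le, hγ.1.1.2.2⟩
      · refine Finset.sum_le_sum_of_subset_of_nonneg ?_ (fun γ _ _ => hb γ)
        intro γ hγ
        simp only [Finset.mem_filter, not_lt] at hγ ⊢
        exact ⟨hγ.1.1, hγ.2, hγ.1.2⟩
    have s2 : (1 - δ) * ∑ γ ∈ Z.filter (fun γ => X2 ≤ γ ∧ γ ≤ X / (1 + δ)), b γ
        ≤ ∑ γ ∈ Z, b γ * ∫ T in X0..X, gk γ T := by
      rw [Finset.mul_sum]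
      refine (Finset.sum_le_sum (f := fun γ => (1 - δ) * b γ)
        (g := fun γ => b γ * ∫ T in X0..X, gk γ T) ?_).trans ?_
      · intro γ hγ
        simp only [Finset.mem_filter] at hγ
        have := low γ hγ.2.1 hγ.2.2
        nlinarith [hb γ]
      · refine Finset.sum_le_sum_of_subset_of_nonneg (Finset.filter_subset _ _) ?_
        intro γ _ _
        exact mul_nonneg (hb γ) (gnn γ)
    have s3 := mul_le_mul_of_nonneg_left s1 (by linarith : (0 : ℝ) ≤ 1 - δ)
    nlinarith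
  · -- upper bound
    rw [hEq, hNb ((1 + δ) * X) (by nlinarith), hNb (2 * X) le_rfl]
    have hpt : ∀ γ ∈ Z, b γ * ∫ T in X0..X, gk γ T ≤
        (if γ ≤ X2 then b γ * ∫ T in X0..(2 * X2), kw γ T else 0)
        + (1 + δ) * (if γ ≤ (1 + δ) * X then b γ else 0) + δ * b γ := by
      intro γ _
      have hbγ := hb γ
      by_cases c1 : γ ≤ X2
      · rw [if_pos c1]
        have a1 := mul_le_mul_of_nonneg_left (up3 γ c1) hbγ
        have a2 : 0 ≤ (1 + δ) * (if γ ≤ (1 + δ) * X then b γ else 0) := by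
          split_ifs
          · positivity
          · simp
        have a3 : 0 ≤ δ * b γ := by positivity
        linarith
      · rw [if_neg c1]
        push Not at c1
        by_cases c2 : γ ≤ (1 + δ) * X
        · rw [if_pos c2]
          have a1 := mul_le_mul_of_nonneg_left (up1 γ c1.le) hbγ
          have a3 : 0 ≤ δ * b γ := by positivity
          linarith
        · rw [if_neg c2]
          push Not at c2
          have a1 := mul_le_mul_of_nonneg_left (up2 γ c1.le c2) hbγ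
          linarith
    refine (Finset.sum_le_sum hpt).trans ?_
    rw [Finset.sum_add_distrib, Finset.sum_add_distrib, ← Finset.mul_sum, ← Finset.mul_sum,
      ← Finset.sum_filter, ← Finset.sum_filter]
    have t1 : ∑ γ ∈ Z.filter (fun γ => γ ≤ X2), b γ * ∫ T in X0..(2 * X2), kw γ T ≤ C1 := by
      rw [hC1]
      refine Finset.sum_le_sum_of_subset_of_nonneg ?_ (fun γ _ _ => mul_nonneg (hb γ) (hkpos γ))
      intro γ hγ
      simp only [Finset.mem_filter, hZmem] at hγ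
      rw [hZsmem]
      exact ⟨hγ.1.1, hγ.2, hγ.1.2.2⟩
    have t2 : ∑ γ ∈ Z, b γ = ∑ γ ∈ Z.filter (fun γ => γ ≤ 2 * X), b γ := by
      congr 1
      rw [Finset.filter_true_of_mem]
      intro γ hγ
      exact ((hZmem γ).1 hγ).2.1
    rw [t2]
    linarith
  · refine hInt.congr_ae ?_
    rw [Filter.EventuallyEq, MeasureTheory.ae_restrict_iff' measurableSet_uIoc]
    refine Filter.Eventually.of_forall (fun T hT => ?_)
    rw [Set.uIoc_of_le hX] at hT
    exact (hint T ⟨hT.1.le, hT.2⟩).symm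

end Pool.Agent.Lib.MP_6bc78b_nt.MS.P4.H75
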